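import Pool.Agent.Lib.MP_7c7c4f_lc.Main

/-!
# MP_7c7c4f_lc: Directed Bandwidth on directed trees is fixed-parameter tractable in the width

The definitions used by the statement are in `Pool.Agent.Lib.MP_7c7c4f_lc.Defs` and
`Pool.Agent.Lib.MP_7c7c4f_lc.FPTDefs`.

Idea of the proof. A directed tree has a level function increasing by one along each arc, so its
directed bandwidth is at most `2 w - 1`, and it splits into `q ≤ 4 w` directed paths such that all
other arcs go from the last vertex of a path to the first vertex of a path. Replacing `B` by
`min B (2 q)`, the orderings of bandwidth at most `B` are the words over the `q` paths accepted by
a finite automaton (its state consists of the last `B` letters and of the sets of paths already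
begun and already finished) with prescribed numbers of occurrences of the letters. The number of
states is bounded in terms of `q`. Removing cycles, the Parikh image of the language is a finite
union of sets `base + submonoid generated by short cycles`, with computable bounds, and membership
of the vector of path lengths in such a set is decided by successive halving, keeping a set of
vectors whose size is bounded in terms of `q`.
-/

namespace Pool.Agent.Results.MP_7c7c4f_lc.DirectedTreeBandwidthFPT

open Pool.Agent.Lib.MP_7c7c4f_lc

/-- Directed Bandwidth restricted to directed trees is fixed-parameter tractable when the parameter
is the width. -/
theorem result : IsFPT Inst.code (fun x => width x.graph)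
    (fun x => IsDirectedTree x.graph) (fun x => DirectedBandwidthLE x.graph x.B) :=
  directedBandwidth_fpt

end Pool.Agent.Results.MP_7c7c4f_lc.DirectedTreeBandwidthFPT
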